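import Mathlib

/-!
Definitions for the question on coherent monoids: acts, finitely presented acts, coherent acts,
left and right coherent monoids, and the special semidirect product of a monoid.
-/

universe u v

namespace Pool.Agent.H9.Coh

/-- The underlying set of the special semidirect product of a monoid M:
pairs (X, x) with X a subset of M and x in M. -/
@[ext] structure SpecialSD (M : Type u) where
  /-- the subset X of M -/
  pt : Set M
  /-- the element x of M -/
  el : M

/-- The special semidirect product: (X, x) (Y, y) = (X ∪ x Y, x y), with identity (∅, 1). -/
instance SpecialSD.instMonoid (M : Type u) [Monoid M] : Monoid (SpecialSD M) where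
  one := ⟨∅, 1⟩
  mul a b := ⟨a.pt ∪ (fun y => a.el * y) '' b.pt, a.el * b.el⟩
  mul_assoc a b c := by
    refine SpecialSD.ext ?_ (mul_assoc _ _ _)
    change (a.pt ∪ (fun y => a.el * y) '' b.pt) ∪ (fun y => (a.el * b.el) * y) '' c.pt
      = a.pt ∪ (fun y => a.el * y) '' (b.pt ∪ (fun y => b.el * y) '' c.pt)
    rw [Set.image_union, Set.image_image, Set.union_assoc]
    simp only [mul_assoc]
  one_mul a := by
    refine SpecialSD.ext ?_ (one_mul _)
    change ∅ ∪ (fun y => 1 * y) '' a.pt = a.pt
    simp
  mul_one a := by
    refine SpecialSD.ext ?_ (mul_one _)
    change a.pt ∪ (fun y => a.el * y) '' ∅ = a.pt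
    simp

/-- The free left S-act on n generators: n copies of S. -/
def FreeAct (S : Type u) (n : ℕ) : Type u := Fin n × S

/-- S acts on the free act by left multiplication in each copy of S. -/
instance FreeAct.instMulAction (S : Type u) [Monoid S] (n : ℕ) : MulAction S (FreeAct S n) where
  smul s x := (x.1, s * x.2)
  one_smul x := Prod.ext rfl (one_mul x.2)
  mul_smul s t x := Prod.ext rfl (mul_assoc s t x.2)

/-- The congruence on the left S-act A generated by the set H of pairs: the smallest equivalence
relation containing H and closed under the action of S. -/
inductive ActCon (S : Type u) {A : Type v} [Monoid S] [MulAction S A] (H : Set (A × A)) :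
    A → A → Prop
  | of {a b : A} : (a, b) ∈ H → ActCon S H a b
  | refl (a : A) : ActCon S H a a
  | symm {a b : A} : ActCon S H a b → ActCon S H b a
  | trans {a b c : A} : ActCon S H a b → ActCon S H b c → ActCon S H a c
  | smul (s : S) {a b : A} : ActCon S H a b → ActCon S H (s • a) (s • b)

/-- The left S-act A is finitely presented: it is the quotient of a finitely generated free act by
a finitely generated congruence, i.e. there is a surjective S-map f from some FreeAct S n to A whose
kernel is the congruence generated by a finite set H. -/
def FinPres (S : Type u) (A : Type v) [Monoid S] [MulAction S A] : Prop :=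
  ∃ (n : ℕ) (H : Set (FreeAct S n × FreeAct S n)) (f : FreeAct S n → A),
    H.Finite ∧ Function.Surjective f ∧ (∀ (s : S) (x : FreeAct S n), f (s • x) = s • f x) ∧
      ∀ x y : FreeAct S n, f x = f y ↔ ActCon S H x y

/-- The subact B of A is finitely generated: B = S G for a finite set G. -/
def FinGen {S : Type u} {A : Type v} [Monoid S] [MulAction S A] (B : SubMulAction S A) : Prop :=
  ∃ G : Set A, G.Finite ∧ ∀ a : A, a ∈ B ↔ ∃ s : S, ∃ g ∈ G, a = s • g

/-- The left S-act A is coherent: each finitely generated subact is finitely presented. -/
def CoherentAct (S : Type u) (A : Type v) [Monoid S] [MulAction S A] : Prop :=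
  ∀ B : SubMulAction S A, FinGen B → FinPres S B

/-- The monoid S is left coherent: every finitely presented left S-act is coherent. -/
def LeftCoherent (S : Type u) [Monoid S] : Prop :=
  ∀ (A : Type u) [MulAction S A], FinPres S A → CoherentAct S A

/-- The monoid S is right coherent: every finitely presented right S-act (that is, left act of the
opposite monoid) is coherent. -/
def RightCoherent (S : Type u) [Monoid S] : Prop := LeftCoherent (Sᵐᵒᵖ)

end Pool.Agent.H9.Coh
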