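import Pool.Agent.H9.CohDefs

/-!
Proof that the special semidirect product of N, where N is the monoid obtained from the semigroup
ℕ × B (B a finite monoid) with (i, b) (j, c) = (i, b c) by adjoining an identity, is left and right
coherent, and that it contains a special semidirect product which is neither.
-/

universe u v

namespace Pool.Agent.H9.Coh

theorem SpecialSD.mul_def {M : Type u} [Monoid M] (a b : SpecialSD M) :
    a * b = ⟨a.pt ∪ (fun y => a.el * y) '' b.pt, a.el * b.el⟩ := rfl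

/-- invariance principle -/
theorem ActCon.inv {S : Type u} {A : Type v} [Monoid S] [MulAction S A] {H : Set (A × A)}
    {β : Type*} (P : A → β) (hP : ∀ (s : S) (p q : A), (p, q) ∈ H → P (s • p) = P (s • q))
    {x y : A} (h : ActCon S H x y) : P x = P y := by
  have key : ∀ s : S, P (s • x) = P (s • y) := by
    induction h with
    | of h => intro s; exact hP s _ _ h
    | refl a => intro s; rfl
    | symm _ ih => intro s; exact (ih s).symm
    | trans _ _ ih1 ih2 => intro s; exact (ih1 s).trans (ih2 s)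
    | smul s' _ ih => intro s; rw [smul_smul, smul_smul]; exact ih _
  simpa using key 1

theorem ActCon.map {S : Type u} {A : Type v} {A' : Type*} [Monoid S] [MulAction S A] [MulAction S A']
    {H : Set (A × A)} {H' : Set (A' × A')} (φ : A → A') (hφ : ∀ (s : S) x, φ (s • x) = s • φ x)
    (hH : ∀ p q, (p, q) ∈ H → ActCon S H' (φ p) (φ q)) {x y : A} (h : ActCon S H x y) :
    ActCon S H' (φ x) (φ y) := by
  induction h with
  | of h => exact hH _ _ h
  | refl a => exact .refl _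
  | symm _ ih => exact .symm ih
  | trans _ _ ih1 ih2 => exact .trans ih1 ih2
  | smul s _ ih => rw [hφ, hφ]; exact .smul s ih

/-- annihilators in a left coherent monoid are finitely generated -/
theorem LeftCoherent.ann {S : Type u} [Monoid S] (h : LeftCoherent S) (a : S) :
    ∃ H : Set (S × S), H.Finite ∧ (∀ p q, (p, q) ∈ H → p * a = q * a) ∧
      ∀ s t : S, s * a = t * a → ActCon S H s t := by
  have h1 : FinPres S S := by
    refine ⟨1, ∅, fun x => x.2, Set.finite_empty, fun s => ⟨((0 : Fin 1), s), rfl⟩,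
      fun s x => rfl, fun x y => ⟨fun h => ?_, fun h => ?_⟩⟩
    · have : x = y := Prod.ext (Subsingleton.elim _ _) h
      rw [this]; exact .refl _
    · exact ActCon.inv (fun x : FreeAct S 1 => x.2) (fun s p q h => h.elim) h
  let B : SubMulAction S S :=
    { carrier := {x | ∃ s : S, x = s * a}
      smul_mem' := by
        rintro c x ⟨s, rfl⟩
        exact ⟨c * s, by rw [smul_eq_mul, mul_assoc]⟩ }
  have hB : FinGen B := ⟨{a}, Set.finite_singleton a, fun x => by
    constructor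
    · rintro ⟨s, rfl⟩; exact ⟨s, a, rfl, rfl⟩
    · rintro ⟨s, g, hg, rfl⟩
      rw [Set.mem_singleton_iff] at hg
      subst hg
      exact ⟨s, rfl⟩⟩
  obtain ⟨n, H, f, hHf, hfs, hfe, hfk⟩ := h S h1 B hB
  have hα : ∀ i : Fin n, ∃ α : S, ((f (i, 1) : B) : S) = α * a := fun i => (f (i, 1)).2
  choose α hα using hα
  have hf : ∀ (i : Fin n) (s : S), ((f (i, s) : B) : S) = s * α i * a := by
    intro i s
    have h2 : f (s • (show FreeAct S n from (i, 1))) = s • f (i, 1) := hfe s _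
    have h3 : (s • (show FreeAct S n from (i, 1))) = (show FreeAct S n from (i, s)) :=
      Prod.ext rfl (mul_one s)
    rw [h3] at h2
    change ((f (show FreeAct S n from (i, s)) : B) : S) = _
    rw [h2]
    change s * ((f (i, 1) : B) : S) = _
    rw [hα, mul_assoc]
  obtain ⟨⟨i0, s0⟩, h0⟩ := hfs ⟨a, 1, (one_mul a).symm⟩
  have h0' : s0 * α i0 * a = a := by
    rw [← hf, h0]
  let φ : FreeAct S n → S := fun x => x.2 * α x.1
  have hφ : ∀ (s : S) x, φ (s • x) = s • φ x := fun s x => mul_assoc _ _ _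
  let H' : Set (S × S) := (fun p : FreeAct S n × FreeAct S n => (φ p.1, φ p.2)) '' H ∪ {(1, s0 * α i0)}
  refine ⟨H', (hHf.image _).union (Set.finite_singleton _), ?_, ?_⟩
  · rintro p q (⟨⟨x, y⟩, hxy, he⟩ | he)
    · obtain ⟨rfl, rfl⟩ := Prod.mk.inj he
      have := (hfk x y).2 (.of hxy)
      have h2 : ((f x : B) : S) = ((f y : B) : S) := congrArg (fun b : B => (b : S)) this
      rw [show x = (x.1, x.2) from rfl, show y = (y.1, y.2) from rfl, hf, hf] at h2
      exact h2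
    · obtain ⟨rfl, rfl⟩ := Prod.mk.inj he
      rw [one_mul, h0']
  · intro s t hst
    have h3 : f (i0, s * s0) = f (i0, t * s0) := by
      apply Subtype.ext
      rw [hf, hf, mul_assoc s, mul_assoc s, h0', mul_assoc t, mul_assoc t, h0', hst]
    have h4 := (hfk _ _).1 h3
    have h5 : ActCon S H' (φ (i0, s * s0)) (φ (i0, t * s0)) :=
      ActCon.map φ hφ (fun p q hpq => .of (Or.inl ⟨(p, q), hpq, rfl⟩)) h4
    have h6 : ActCon S H' (1 : S) (s0 * α i0) := .of (Or.inr rfl)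
    have h7 : ∀ s : S, ActCon S H' s (φ (i0, s * s0)) := by
      intro s
      have := ActCon.smul s h6
      simpa [φ, mul_assoc] using this
    exact (h7 s).trans (h5.trans (h7 t).symm)


/-- elementary moves on the pairs (t, a) -/
inductive Move {T : Type u} {A : Type v} [Monoid T] [MulAction T A] (T0 : Submonoid T) :
    T × A → T × A → Prop
  | m1 (t y : T) (a : A) (hy : y ∈ T0) : Move T0 (t * y, a) (t, y • a)
  | m2 (t y : T) (a : A) (hy : y ∈ T0) (h : y • a = a) : Move T0 (t, a) (t * y, a)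

/-- a criterion for coherence -/
theorem leftCoh_of_local {T : Type u} [Monoid T]
    (h : ∀ F : Set T, F.Finite → ∃ T0 : Submonoid T, F ⊆ T0 ∧ (T0 : Set T).Finite ∧
      ∀ (A : Type u) [MulAction T A], ∃ ν : T × A → T × A,
        (∀ (t y : T) (a : A), y ∈ T0 → ν (t * y, a) = ν (t, y • a)) ∧
        ∀ p, Relation.ReflTransGen (Move T0) p (ν p)) : LeftCoherent T := by
  rintro A _ ⟨n, H, f, hH, hfs, hfe, hfk⟩ B ⟨G, hG, hGB⟩
  obtain ⟨m, b, hb⟩ : ∃ (m : ℕ) (b : Fin m → A), Set.range b = G := by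
    have := hG.to_subtype
    let e := Finite.equivFin G
    refine ⟨Nat.card G, fun i => (e.symm i : A), ?_⟩
    ext x
    constructor
    · rintro ⟨i, rfl⟩; exact (e.symm i).2
    · intro hx; exact ⟨e ⟨x, hx⟩, congrArg Subtype.val (e.symm_apply_apply ⟨x, hx⟩)⟩
  choose l hl using fun j => hfs (b j)
  let F : Set T := Set.range (fun j => (l j).2) ∪ ((fun p => p.1.2) '' H ∪ (fun p => p.2.2) '' H)
  have hF : F.Finite := (Set.finite_range _).union ((hH.image _).union (hH.image _))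
  obtain ⟨T0, hFT, hT0, hν⟩ := h F hF
  obtain ⟨ν, hν1, hν2⟩ := hν A
  have hf1 : ∀ x : FreeAct T n, f x = x.2 • f (show FreeAct T n from (x.1, 1)) := by
    intro x
    have h2 := hfe x.2 (show FreeAct T n from (x.1, 1))
    have h3 : (x.2 • (show FreeAct T n from (x.1, 1))) = x := Prod.ext rfl (mul_one x.2)
    rw [h3] at h2
    exact h2
  let N : FreeAct T n → T × A := fun x => ν (x.2, f (show FreeAct T n from (x.1, 1)))
  have hN : ∀ x y, f x = f y → N x = N y := by
    intro x y hxy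
    refine ActCon.inv N ?_ ((hfk x y).1 hxy)
    intro s p q hpq
    have hp : N (s • p) = ν (s, f p) := by
      change ν (s * p.2, _) = _
      rw [hν1 _ _ _ (hFT (Or.inr (Or.inl ⟨_, hpq, rfl⟩))), hf1 p]
      rfl
    have hq : N (s • q) = ν (s, f q) := by
      change ν (s * q.2, _) = _
      rw [hν1 _ _ _ (hFT (Or.inr (Or.inr ⟨_, hpq, rfl⟩))), hf1 q]
      rfl
    rw [hp, hq, (hfk p q).2 (.of hpq)]
  have hN2 : ∀ (s : T) j, N (s • l j) = ν (s, b j) := by
    intro s j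
    change ν (s * (l j).2, _) = _
    rw [hν1 _ _ _ (hFT (Or.inl ⟨j, rfl⟩)), ← hl j, hf1 (l j)]
    rfl
  have hN3 : ∀ (s t : T) j k, s • b j = t • b k → ν (s, b j) = ν (t, b k) := by
    intro s t j k hst
    rw [← hN2, ← hN2]
    apply hN
    rw [hfe, hfe, hl, hl, hst]
  let κ : Set (FreeAct T m × FreeAct T m) :=
    {p | p.1.2 ∈ T0 ∧ p.2.2 ∈ T0 ∧ p.1.2 • b p.1.1 = p.2.2 • b p.2.1}
  have hκ : κ.Finite := by
    have h1 : ((Set.univ : Set (Fin m)) ×ˢ (T0 : Set T)).Finite := Set.finite_univ.prod hT0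
    refine Set.Finite.subset (h1.prod h1) ?_
    rintro ⟨p, q⟩ ⟨h1, h2, -⟩
    exact ⟨⟨Set.mem_univ _, h1⟩, ⟨Set.mem_univ _, h2⟩⟩
  let Rep : T × A → FreeAct T m → Prop := fun p x => ∃ y ∈ T0, p.2 = y • b x.1 ∧ x.2 = p.1 * y
  have rep_uniq : ∀ p x x', Rep p x → Rep p x' → ActCon T κ x x' := by
    rintro ⟨t, a⟩ ⟨j, s⟩ ⟨j', s'⟩ ⟨y, hy, h1, h2⟩ ⟨y', hy', h1', h2'⟩
    simp only at h1 h2 h1' h2'
    have h3 : ActCon T κ (show FreeAct T m from (j, y)) (show FreeAct T m from (j', y')) :=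
      .of ⟨hy, hy', h1.symm.trans h1'⟩
    have h4 := ActCon.smul t h3
    subst h2 h2'
    exact h4
  have rep_move : ∀ p q, Move T0 p q → ∀ x, Rep p x → ∃ x', Rep q x' ∧ ActCon T κ x x' := by
    rintro p q hm ⟨j, s⟩ ⟨y', hy', h1, h2⟩
    cases hm with
    | m1 t y a hy =>
      simp only at h1 h2
      refine ⟨(j, s), ⟨y * y', mul_mem hy hy', ?_, ?_⟩, .refl _⟩
      · simp only; rw [h1, smul_smul]
      · simp only; rw [h2, mul_assoc]
    | m2 t y a hy h =>
      simp only at h1 h2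
      refine ⟨(j, t * y * y'), ⟨y', hy', h1, rfl⟩, ?_⟩
      have h3 : ActCon T κ (show FreeAct T m from (j, y')) (show FreeAct T m from (j, y * y')) := by
        refine .of ⟨hy', mul_mem hy hy', ?_⟩
        change y' • b j = (y * y') • b j
        rw [mul_smul, ← h1, h]
      have h4 := ActCon.smul t h3
      subst h2
      rw [mul_assoc]
      exact h4
  have rep_moves : ∀ p q, Relation.ReflTransGen (Move T0) p q → ∀ x, Rep p x →
      ∃ x', Rep q x' ∧ ActCon T κ x x' := by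
    intro p q hpq x hx
    induction hpq with
    | refl => exact ⟨x, hx, .refl _⟩
    | tail _ hm ih =>
      obtain ⟨x', hx', h1⟩ := ih
      obtain ⟨x'', hx'', h2⟩ := rep_move _ _ hm x' hx'
      exact ⟨x'', hx'', h1.trans h2⟩
  have hmem : ∀ x : FreeAct T m, x.2 • b x.1 ∈ B := fun x =>
    (hGB _).2 ⟨x.2, b x.1, hb ▸ Set.mem_range_self _, rfl⟩
  let g : FreeAct T m → B := fun x => ⟨x.2 • b x.1, hmem x⟩
  have hge : ∀ (s : T) (x : FreeAct T m), g (s • x) = s • g x := by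
    intro s x
    apply Subtype.ext
    change (s * x.2) • b x.1 = s • (x.2 • b x.1)
    rw [mul_smul]
  refine ⟨m, κ, g, hκ, ?_, hge, ?_⟩
  · rintro ⟨a, ha⟩
    obtain ⟨s, c, hc, rfl⟩ := (hGB a).1 ha
    rw [← hb] at hc
    obtain ⟨j, rfl⟩ := hc
    exact ⟨(j, s), rfl⟩
  · intro x y
    constructor
    · intro hxy
      have h1 : x.2 • b x.1 = y.2 • b y.1 := congrArg (fun z : B => (z : A)) hxy
      have h2 := hN3 _ _ _ _ h1
      have hx : Rep (x.2, b x.1) x := ⟨1, one_mem _, (one_smul _ _).symm, (mul_one _).symm⟩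
      have hy : Rep (y.2, b y.1) y := ⟨1, one_mem _, (one_smul _ _).symm, (mul_one _).symm⟩
      obtain ⟨x', hx', h3⟩ := rep_moves _ _ (hν2 _) x hx
      obtain ⟨y', hy', h4⟩ := rep_moves _ _ (hν2 _) y hy
      rw [← h2] at hy'
      exact h3.trans ((rep_uniq _ _ _ hx' hy').trans h4.symm)
    · intro hxy
      refine ActCon.inv g ?_ hxy
      rintro s p q ⟨-, -, h3⟩
      rw [hge, hge]
      congr 1
      exact Subtype.ext h3


/-- The monoid obtained from the semigroup ℕ × B, (i, b) (j, c) = (i, b c), by adjoining an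
identity. -/
inductive NN (B : Type u) : Type u
  | e : NN B
  | el (i : ℕ) (b : B) : NN B

namespace NN

variable {B : Type u} [Monoid B]

/-- the projection to B -/
def pr : NN B → B
  | e => 1
  | el _ b => b

instance instMonoid : Monoid (NN B) where
  one := e
  mul x y := match x with
    | e => y
    | el i b => el i (b * y.pr)
  mul_assoc x y z := by
    cases x with
    | e => rfl
    | el i b =>
      cases y with
      | e => change el i (b * 1 * z.pr) = el i (b * z.pr); rw [mul_one]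
      | el j c => change el i (b * c * z.pr) = el i (b * (c * z.pr)); rw [mul_assoc]
  one_mul x := rfl
  mul_one x := by
    cases x with
    | e => rfl
    | el i b => change el i (b * 1) = el i b; rw [mul_one]

theorem one_def : (1 : NN B) = e := rfl

theorem e_mul (x : NN B) : e * x = x := rfl

theorem el_mul (i : ℕ) (b : B) (x : NN B) : el i b * x = el i (b * x.pr) := rfl

end NN

section Sat

variable {N : Type u}

/-- saturated sets -/
def Sat (r : N → N → Prop) (Y : Set N) : Prop := ∀ n n', r n n' → (n ∈ Y ↔ n' ∈ Y)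

/-- largest saturated subset -/
def core (r : N → N → Prop) (X : Set N) : Set N := {n | ∀ n', r n n' → n' ∈ X}

theorem Sat.union {r : N → N → Prop} {X Y : Set N} (hX : Sat r X) (hY : Sat r Y) :
    Sat r (X ∪ Y) := fun n n' h => or_congr (hX n n' h) (hY n n' h)

theorem Sat.empty (r : N → N → Prop) : Sat r (∅ : Set N) := fun _ _ _ => Iff.rfl

theorem Sat.core {r : N → N → Prop} (hr : Equivalence r) (X : Set N) : Sat r (core r X) :=
  fun _ _ h => ⟨fun h1 _ h2 => h1 _ (hr.trans h h2), fun h1 _ h2 => h1 _ (hr.trans (hr.symm h) h2)⟩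

theorem core_subset {r : N → N → Prop} (hr : Equivalence r) (X : Set N) : core r X ⊆ X :=
  fun n h => h n (hr.refl n)

theorem core_union {r : N → N → Prop} (hr : Equivalence r) {X Y : Set N} (hY : Sat r Y) :
    core r (Y ∪ X) = Y ∪ core r X := by
  ext n
  constructor
  · intro h
    by_cases hn : n ∈ Y
    · exact Or.inl hn
    · refine Or.inr fun n' h' => ?_
      rcases h n' h' with h1 | h1
      · exact absurd ((hY n n' h').2 h1) hn
      · exact h1
  · rintro (h | h) n' h'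
    · exact Or.inl ((hY n n' h').1 h)
    · exact Or.inr (h n' h')

theorem core_of_sat {r : N → N → Prop} (hr : Equivalence r) {Y : Set N} (hY : Sat r Y) :
    core r Y = Y := by
  refine Set.Subset.antisymm (core_subset hr Y) fun n hn n' h' => (hY n n' h').1 hn

/-- union of all saturated sets with the property P -/
def top (r : N → N → Prop) (P : Set N → Prop) : Set N := ⋃₀ {Y | Sat r Y ∧ P Y}

theorem subset_top {r : N → N → Prop} {P : Set N → Prop} {Y : Set N} (h : Sat r Y) (h' : P Y) :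
    Y ⊆ top r P := Set.subset_sUnion_of_mem ⟨h, h'⟩

theorem top_spec {r : N → N → Prop} (hf : {Y | Sat r Y}.Finite) {P : Set N → Prop} (h0 : P ∅)
    (hP : ∀ Y Z, P Y → P Z → P (Y ∪ Z)) : Sat r (top r P) ∧ P (top r P) := by
  have hf' : {Y | Sat r Y ∧ P Y}.Finite := hf.subset fun Y h => h.1
  have key : ∀ s : Set (Set N), s.Finite → s ⊆ {Y | Sat r Y ∧ P Y} → Sat r (⋃₀ s) ∧ P (⋃₀ s) := by
    intro s hs
    induction s, hs using Set.Finite.induction_on with
    | empty => intro _; rw [Set.sUnion_empty]; exact ⟨Sat.empty r, h0⟩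
    | insert _ _ ih =>
      intro hsub
      rw [Set.sUnion_insert]
      have h1 := hsub (Set.mem_insert _ _)
      have h2 := ih (fun Y hY => hsub (Set.mem_insert_of_mem _ hY))
      exact ⟨h1.1.union h2.1, hP _ _ h1.2 h2.2⟩
  exact key _ hf' (fun Y h => h)

theorem finite_sat (𝒳 : Set (Set N)) (h : 𝒳.Finite) :
    {Y | Sat (fun n n' : N => ∀ X ∈ 𝒳, (n ∈ X ↔ n' ∈ X)) Y}.Finite := by
  have := h.to_subtype
  have : Finite (Set (Set 𝒳)) := inferInstance
  let sig : N → Set 𝒳 := fun n => {X | n ∈ (X : Set N)}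
  refine (Set.finite_range (fun U : Set (Set 𝒳) => sig ⁻¹' U)).subset ?_
  intro Y hY
  refine ⟨sig '' Y, ?_⟩
  ext n
  constructor
  · rintro ⟨n', hn', h'⟩
    refine (hY n' n fun X hX => ?_).1 hn'
    have := congrArg (fun W : Set 𝒳 => (⟨X, hX⟩ : 𝒳) ∈ W) h'
    exact iff_of_eq this
  · intro hn
    exact ⟨n, hn, rfl⟩

end Sat

section Coh

variable {B : Type u} [Monoid B]

/-- elements with index in J, or the identity -/
def InN (J : Set ℕ) : NN B → Prop
  | .e => True
  | .el i _ => i ∈ J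

theorem InN.mul {J : Set ℕ} {x y : NN B} (hx : InN J x) (hy : InN J y) : InN J (x * y) := by
  cases x with
  | e => exact hy
  | el i b => exact hx

omit [Monoid B] in
theorem InN.finite [Finite B] {J : Set ℕ} (hJ : J.Finite) : {x : NN B | InN J x}.Finite := by
  have h1 : (J ×ˢ (Set.univ : Set B)).Finite := hJ.prod Set.finite_univ
  refine ((Set.finite_singleton (NN.e : NN B)).union
    (h1.image (fun p : ℕ × B => NN.el p.1 p.2))).subset ?_
  intro x hx
  cases x with
  | e => exact Or.inl rfl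
  | el i b => exact Or.inr ⟨(i, b), ⟨hx, Set.mem_univ _⟩, rfl⟩

/-- the local data -/
structure Loc (B : Type u) [Monoid B] where
  J : Set ℕ
  r : NN B → NN B → Prop
  hr : Equivalence r
  h0 : 0 ∈ J
  hJ : J.Finite
  hf : {Y | Sat r Y}.Finite
  hs : ∀ n n', r n n' → InN J n → n = n'

theorem Loc.sat_of_subset (L : Loc B) {Y : Set (NN B)} (h : ∀ y ∈ Y, InN L.J y) : Sat L.r Y := by
  intro n n' hn
  constructor
  · intro h1
    rw [← L.hs n n' hn (h n h1)]; exact h1
  · intro h1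
    rw [← L.hs n' n (L.hr.symm hn) (h n' h1)]; exact h1

theorem Loc.sat_image (L : Loc B) {x : NN B} (hx : InN L.J x) {Y : Set (NN B)} (hY : Sat L.r Y) :
    Sat L.r ((fun y => x * y) '' Y) := by
  cases x with
  | e => simpa [NN.e_mul] using hY
  | el i b =>
    refine L.sat_of_subset ?_
    rintro _ ⟨y, -, rfl⟩
    exact hx

theorem Loc.sat_image' (L : Loc B) {i : ℕ} (hi : i ∈ L.J) (b : B) (Y : Set (NN B)) :
    Sat L.r ((fun y => NN.el i b * y) '' Y) := by
  refine L.sat_of_subset ?_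
  rintro _ ⟨y, -, rfl⟩
  exact hi

/-- the local submonoid -/
def Loc.sub (L : Loc B) : Submonoid (SpecialSD (NN B)) where
  carrier := {t | Sat L.r t.pt ∧ InN L.J t.el}
  one_mem' := ⟨Sat.empty _, trivial⟩
  mul_mem' := by
    rintro ⟨X, x⟩ ⟨Y, y⟩ ⟨h1, h2⟩ ⟨h3, h4⟩
    exact ⟨h1.union (L.sat_image h2 h3), h2.mul h4⟩

theorem Loc.mem_sub (L : Loc B) {X : Set (NN B)} {x : NN B} :
    (⟨X, x⟩ : SpecialSD (NN B)) ∈ L.sub ↔ Sat L.r X ∧ InN L.J x := Iff.rfl

theorem Loc.finite_sub [Finite B] (L : Loc B) : (L.sub : Set (SpecialSD (NN B))).Finite := by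
  have h1 : ({Y | Sat L.r Y} ×ˢ {x : NN B | InN L.J x}).Finite := L.hf.prod (InN.finite L.hJ)
  refine (h1.image (fun p => (⟨p.1, p.2⟩ : SpecialSD (NN B)))).subset ?_
  rintro ⟨X, x⟩ ⟨h2, h3⟩
  exact ⟨(X, x), ⟨h2, h3⟩, rfl⟩

theorem exists_loc [Finite B] (F : Set (SpecialSD (NN B))) (hF : F.Finite) :
    ∃ L : Loc B, F ⊆ L.sub := by
  let J : Set ℕ := {0} ∪ (fun t : SpecialSD (NN B) => match t.el with | .e => 0 | .el i _ => i) '' F
  have hJ : J.Finite := (Set.finite_singleton _).union (hF.image _)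
  let 𝒳 : Set (Set (NN B)) := (fun t : SpecialSD (NN B) => t.pt) '' F ∪
    (fun v => ({v} : Set (NN B))) '' {x : NN B | InN J x}
  have h𝒳 : 𝒳.Finite := (hF.image _).union ((InN.finite hJ).image _)
  refine ⟨⟨J, fun n n' => ∀ X ∈ 𝒳, (n ∈ X ↔ n' ∈ X), ⟨fun _ _ _ => Iff.rfl,
    fun h X hX => (h X hX).symm, fun h h' X hX => (h X hX).trans (h' X hX)⟩, Or.inl rfl, hJ,
    finite_sat 𝒳 h𝒳, ?_⟩, ?_⟩
  · intro n n' h hn
    have := (h {n} (Or.inr ⟨n, hn, rfl⟩)).1 rfl
    exact this.symm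
  · intro t ht
    refine ⟨fun n n' h => h _ (Or.inl ⟨t, ht, rfl⟩), ?_⟩
    have h1 : (match t.el with | .e => 0 | .el i _ => i) ∈ J := Or.inr ⟨t, ht, rfl⟩
    cases h2 : t.el with
    | e => trivial
    | el i b => rw [h2] at h1; exact h1


theorem mk_mul (X Y : Set (NN B)) (x y : NN B) :
    (⟨X, x⟩ * ⟨Y, y⟩ : SpecialSD (NN B)) = ⟨X ∪ (fun z => x * z) '' Y, x * y⟩ := rfl

theorem e_image (Y : Set (NN B)) : (fun z => NN.e * z) '' Y = Y := by
  simp [NN.e_mul]

theorem mk_e_mul (X Y : Set (NN B)) (y : NN B) :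
    (⟨X, NN.e⟩ * ⟨Y, y⟩ : SpecialSD (NN B)) = ⟨X ∪ Y, y⟩ := by
  rw [mk_mul, e_image]; rfl

theorem mk_empty_e : (⟨∅, NN.e⟩ : SpecialSD (NN B)) = 1 := rfl

/-- the part of X in the fibre over i, moved to the fibre over 0 -/
def sh (i : ℕ) (X : Set (NN B)) : Set (NN B) := {z | ∃ c, z = NN.el 0 c ∧ NN.el i c ∈ X}

/-- the part of X outside the fibre over i -/
def rest (i : ℕ) (X : Set (NN B)) : Set (NN B) := {z | z ∈ X ∧ ∀ c, z ≠ NN.el i c}

theorem rest_sh (i : ℕ) (X : Set (NN B)) (b : B) :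
    (⟨rest i X, NN.el i 1⟩ * ⟨sh i X, NN.el 0 b⟩ : SpecialSD (NN B)) = ⟨X, NN.el i b⟩ := by
  rw [mk_mul]
  refine SpecialSD.ext ?_ ?_
  · ext z
    constructor
    · rintro (h | ⟨w, ⟨c, rfl, hc⟩, rfl⟩)
      · exact h.1
      · change NN.el i (1 * c) ∈ X
        rw [one_mul]; exact hc
    · intro hz
      by_cases h : ∃ c, z = NN.el i c
      · obtain ⟨c, rfl⟩ := h
        refine Or.inr ⟨NN.el 0 c, ⟨c, rfl, hz⟩, ?_⟩
        change NN.el i (1 * c) = _
        rw [one_mul]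
      · exact Or.inl ⟨hz, fun c hc => h ⟨c, hc⟩⟩
  · change NN.el i (1 * b) = _
    rw [one_mul]

theorem rest_union (i : ℕ) (X Y : Set (NN B)) (b : B) :
    rest i (X ∪ (fun z => NN.el i b * z) '' Y) = rest i X := by
  ext z
  constructor
  · rintro ⟨h | ⟨w, _, rfl⟩, h2⟩
    · exact ⟨h, h2⟩
    · exact absurd rfl (h2 _)
  · rintro ⟨h, h2⟩
    exact ⟨Or.inl h, h2⟩

theorem sh_union (i : ℕ) (X Y : Set (NN B)) (b : B) :
    sh i (X ∪ (fun z => NN.el i b * z) '' Y) = sh i X ∪ (fun z => NN.el 0 b * z) '' Y := by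
  ext z
  constructor
  · rintro ⟨c, rfl, h | ⟨w, hw, h2⟩⟩
    · exact Or.inl ⟨c, rfl, h⟩
    · refine Or.inr ⟨w, hw, ?_⟩
      have h3 : NN.el i (b * w.pr) = NN.el i c := h2
      injection h3 with _ h4
      change NN.el 0 (b * w.pr) = _
      rw [h4]
  · rintro (⟨c, rfl, h⟩ | ⟨w, hw, rfl⟩)
    · exact ⟨c, rfl, Or.inl h⟩
    · exact ⟨b * w.pr, rfl, Or.inr ⟨w, hw, rfl⟩⟩

open Classical in
/-- normal form for the left case -/
noncomputable def nuL (L : Loc B) {A : Type u} [MulAction (SpecialSD (NN B)) A] :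
    SpecialSD (NN B) × A → SpecialSD (NN B) × A := fun p =>
  if InN L.J p.1.el then
    (⟨p.1.pt ∪ top L.r (fun Y => (⟨Y, NN.e⟩ : SpecialSD (NN B)) • (⟨core L.r p.1.pt, p.1.el⟩ : SpecialSD (NN B)) • p.2
        = (⟨core L.r p.1.pt, p.1.el⟩ : SpecialSD (NN B)) • p.2), NN.e⟩,
      (⟨core L.r p.1.pt, p.1.el⟩ : SpecialSD (NN B)) • p.2)
  else match p.1.el with
    | .e => p
    | .el i b => (⟨rest i p.1.pt, NN.el i 1⟩, (⟨sh i p.1.pt, NN.el 0 b⟩ : SpecialSD (NN B)) • p.2)

theorem leftCoh [Finite B] : LeftCoherent (SpecialSD (NN B)) := by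
  refine leftCoh_of_local fun F hF => ?_
  obtain ⟨L, hL⟩ := exists_loc F hF
  refine ⟨L.sub, hL, L.finite_sub, fun A _ => ⟨nuL L, ?_, ?_⟩⟩
  · rintro ⟨X, x⟩ ⟨Y, y⟩ a ⟨hY, hy⟩
    simp only at hY hy
    by_cases hx : InN L.J x
    · have h1 : InN L.J (x * y) := hx.mul hy
      have hs := L.sat_image hx hY
      have hc : (⟨core L.r (X ∪ (fun z => x * z) '' Y), x * y⟩ : SpecialSD (NN B)) • a
          = (⟨core L.r X, x⟩ : SpecialSD (NN B)) • (⟨Y, y⟩ : SpecialSD (NN B)) • a := by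
        rw [smul_smul, mk_mul, Set.union_comm, core_union L.hr hs, Set.union_comm]
      rw [mk_mul]
      unfold nuL
      simp only [h1, hx, if_true]
      rw [hc]
      refine Prod.ext (SpecialSD.ext ?_ rfl) rfl
      simp only
      rw [Set.union_assoc]
      congr 1
      refine Set.union_eq_self_of_subset_left (subset_top hs ?_)
      rw [← hc, smul_smul, mk_e_mul, Set.union_comm X, core_union L.hr hs, ← Set.union_assoc,
        Set.union_self]
    · cases x with
      | e => exact absurd trivial hx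
      | el i b =>
        have h1 : ¬ InN L.J (NN.el i b * y) := hx
        rw [mk_mul]
        unfold nuL
        simp only [h1, hx, if_false]
        change ((⟨rest i (X ∪ (fun z => NN.el i b * z) '' Y), NN.el i 1⟩ : SpecialSD (NN B)),
          (⟨sh i (X ∪ (fun z => NN.el i b * z) '' Y), NN.el 0 (b * y.pr)⟩ : SpecialSD (NN B)) • a) = _
        rw [rest_union, sh_union, smul_smul, mk_mul]
        rfl
  · rintro ⟨⟨X, x⟩, a⟩
    by_cases hx : InN L.J x
    · unfold nuL
      simp only [hx, if_true]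
      set c := (⟨core L.r X, x⟩ : SpecialSD (NN B)) • a with hc
      have h1 : (⟨X, x⟩ : SpecialSD (NN B)) = ⟨X, NN.e⟩ * ⟨core L.r X, x⟩ := by
        rw [mk_e_mul, Set.union_eq_self_of_subset_right (core_subset L.hr X)]
      have h2 := top_spec L.hf (P := fun Y => (⟨Y, NN.e⟩ : SpecialSD (NN B)) • c = c)
        (by rw [mk_empty_e, one_smul]) (fun Y Z hY hZ => by
          have h3 : (⟨Y ∪ Z, NN.e⟩ : SpecialSD (NN B)) = ⟨Y, NN.e⟩ * ⟨Z, NN.e⟩ := by rw [mk_e_mul]
          rw [h3, mul_smul, hZ, hY])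
      refine Relation.ReflTransGen.trans (b := (⟨X, NN.e⟩, c)) (.single ?_) (.single ?_)
      · rw [h1]
        exact Move.m1 _ _ _ (L.mem_sub.2 ⟨Sat.core L.hr X, hx⟩)
      · have := Move.m2 (T0 := L.sub) (⟨X, NN.e⟩ : SpecialSD (NN B)) ⟨_, NN.e⟩ c
          (L.mem_sub.2 ⟨h2.1, trivial⟩) h2.2
        rw [mk_e_mul] at this
        exact this
    · cases x with
      | e => exact absurd trivial hx
      | el i b =>
        unfold nuL
        simp only [hx, if_false]
        refine .single ?_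
        have h1 := Move.m1 (T0 := L.sub) (⟨rest i X, NN.el i 1⟩ : SpecialSD (NN B)) ⟨sh i X, NN.el 0 b⟩ a
          (L.mem_sub.2 ⟨L.sat_of_subset (by rintro _ ⟨c, rfl, -⟩; exact L.h0), L.h0⟩)
        rw [rest_sh] at h1
        exact h1


open MulOpposite

/-- the distinguished idempotent -/
def gg : SpecialSD (NN B) := ⟨∅, NN.el 0 1⟩

theorem mul_gg (X : Set (NN B)) (i : ℕ) (b : B) :
    (⟨X, NN.el i b⟩ * gg : SpecialSD (NN B)) = ⟨X, NN.el i b⟩ := by
  unfold gg
  rw [mk_mul]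
  refine SpecialSD.ext ?_ ?_
  · simp
  · change NN.el i (b * 1) = _
    rw [mul_one]

theorem gg_mul (X : Set (NN B)) (x : NN B) :
    (gg * ⟨X, x⟩ : SpecialSD (NN B)) = ⟨(fun z => NN.el 0 1 * z) '' X, NN.el 0 (1 * x.pr)⟩ := by
  unfold gg
  rw [mk_mul, Set.empty_union]
  rfl

theorem gg_mul_gg (X : Set (NN B)) (x : NN B) :
    (gg * ⟨X, x⟩ * gg : SpecialSD (NN B)) = gg * ⟨X, x⟩ := by
  rw [gg_mul, mul_gg]

theorem gg_mul_mem (L : Loc B) (t : SpecialSD (NN B)) : gg * t ∈ L.sub := by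
  obtain ⟨X, x⟩ := t
  rw [gg_mul]
  exact L.mem_sub.2 ⟨L.sat_image' L.h0 _ _, L.h0⟩

theorem gg_mem (L : Loc B) : gg ∈ L.sub := L.mem_sub.2 ⟨Sat.empty _, L.h0⟩

/-- the set of stable points -/
def stR (L : Loc B) {A : Type u} [MulAction (SpecialSD (NN B))ᵐᵒᵖ A] (c : A) : Set (NN B) :=
  top L.r (fun Y => op (⟨Y, NN.e⟩ : SpecialSD (NN B)) • c = c)

theorem stR_spec (L : Loc B) {A : Type u} [MulAction (SpecialSD (NN B))ᵐᵒᵖ A] (c : A) :
    Sat L.r (stR L c) ∧ op (⟨stR L c, NN.e⟩ : SpecialSD (NN B)) • c = c := by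
  refine top_spec L.hf (P := fun Y => op (⟨Y, NN.e⟩ : SpecialSD (NN B)) • c = c)
        (by rw [mk_empty_e, op_one, one_smul]) (fun Y Z hY hZ => ?_)
  have h3 : (⟨Y ∪ Z, NN.e⟩ : SpecialSD (NN B)) = ⟨Y, NN.e⟩ * ⟨Z, NN.e⟩ := by rw [mk_e_mul]
  rw [h3, op_mul, mul_smul, hY, hZ]

open Classical in
/-- normal form for the right case, second stage -/
noncomputable def nuR' (L : Loc B) {A : Type u} [MulAction (SpecialSD (NN B))ᵐᵒᵖ A] (X : Set (NN B))
    (x : NN B) (c : A) : (SpecialSD (NN B))ᵐᵒᵖ × A :=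
  if op (gg : SpecialSD (NN B)) • c = c then (1, op (gg * (⟨X, x⟩ : SpecialSD (NN B))) • c)
  else if X ⊆ stR L c ∧ InN L.J x then (1, op (⟨∅, x⟩ : SpecialSD (NN B)) • c)
  else (op ⟨X ∪ stR L c, x⟩, c)

/-- normal form for the right case -/
noncomputable def nuR (L : Loc B) {A : Type u} [MulAction (SpecialSD (NN B))ᵐᵒᵖ A] :
    (SpecialSD (NN B))ᵐᵒᵖ × A → (SpecialSD (NN B))ᵐᵒᵖ × A := fun p =>
  nuR' L (unop p.1).pt (unop p.1).el (op (⟨core L.r (unop p.1).pt, NN.e⟩ : SpecialSD (NN B)) • p.2)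

theorem nuR_op (L : Loc B) {A : Type u} [MulAction (SpecialSD (NN B))ᵐᵒᵖ A] (X : Set (NN B)) (x : NN B)
    (a : A) : nuR L (op (⟨X, x⟩ : SpecialSD (NN B)), a)
      = nuR' L X x (op (⟨core L.r X, NN.e⟩ : SpecialSD (NN B)) • a) := rfl

theorem nuR_mem (L : Loc B) {A : Type u} [MulAction (SpecialSD (NN B))ᵐᵒᵖ A] (u : SpecialSD (NN B))
    (hu : u ∈ L.sub) (a : A) : nuR L (op u, a) = (1, op u • a) := by
  obtain ⟨U, v⟩ := u
  obtain ⟨h1, h2⟩ := L.mem_sub.1 hu
  rw [nuR_op, core_of_sat L.hr h1]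
  have h3 : op (⟨U, v⟩ : SpecialSD (NN B)) • op (⟨U, NN.e⟩ : SpecialSD (NN B)) • a
      = op (⟨U, v⟩ : SpecialSD (NN B)) • a := by
    rw [smul_smul, ← op_mul, mk_e_mul, Set.union_self]
  unfold nuR'
  split_ifs with h4 h5
  · rw [op_mul, mul_smul, h4, h3]
  · rw [smul_smul, ← op_mul, mk_e_mul, Set.union_empty]
  · exfalso
    refine h5 ⟨subset_top h1 ?_, h2⟩
    rw [smul_smul, ← op_mul, mk_e_mul, Set.union_self]

theorem rightCoh [Finite B] : RightCoherent (SpecialSD (NN B)) := by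
  refine leftCoh_of_local fun F hF => ?_
  obtain ⟨L, hL⟩ := exists_loc (unop '' F) (hF.image _)
  refine ⟨L.sub.op, fun t ht => hL ⟨t, ht, rfl⟩, ?_, fun A _ => ⟨nuR L, ?_, ?_⟩⟩
  · refine (L.finite_sub.image op).subset ?_
    intro t ht
    exact ⟨unop t, ht, rfl⟩
  · intro t y a hy
    obtain ⟨t, rfl⟩ := op_surjective t
    obtain ⟨y, rfl⟩ := op_surjective y
    have hy' : y ∈ L.sub := hy
    obtain ⟨X, x⟩ := t
    obtain ⟨Y, y⟩ := y
    obtain ⟨hY, hy2⟩ := L.mem_sub.1 hy'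
    rw [← op_mul]
    cases y with
    | e =>
      rw [mk_e_mul, nuR_op, nuR_op]
      have hc : op (⟨core L.r (Y ∪ X), NN.e⟩ : SpecialSD (NN B)) • a
          = op (⟨core L.r X, NN.e⟩ : SpecialSD (NN B)) • op (⟨Y, NN.e⟩ : SpecialSD (NN B)) • a := by
        rw [smul_smul, ← op_mul, mk_e_mul, core_union L.hr hY]
      rw [← hc]
      set c := op (⟨core L.r (Y ∪ X), NN.e⟩ : SpecialSD (NN B)) • a with hcdef
      have hYc : op (⟨Y, NN.e⟩ : SpecialSD (NN B)) • c = c := by
        rw [hcdef, smul_smul, ← op_mul, mk_e_mul, core_union L.hr hY, Set.union_right_comm,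
          Set.union_self]
      have hYs : Y ⊆ stR L c := subset_top hY hYc
      unfold nuR'
      by_cases h4 : op (gg : SpecialSD (NN B)) • c = c
      · simp only [h4, if_true]
        refine Prod.ext rfl ?_
        simp only
        have h5 : (gg * ⟨Y ∪ X, x⟩ : SpecialSD (NN B)) = (gg * ⟨Y, NN.e⟩) * (gg * ⟨X, x⟩) := by
          rw [← mul_assoc, gg_mul_gg, mul_assoc, mk_e_mul]
        rw [h5, op_mul, mul_smul]
        congr 1
        rw [op_mul, mul_smul, h4, hYc]
      · simp only [h4, if_false]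
        have h6 : (Y ∪ X ⊆ stR L c ∧ InN L.J x) ↔ (X ⊆ stR L c ∧ InN L.J x) := by
          rw [Set.union_subset_iff]
          tauto
        have h7 : Y ∪ X ∪ stR L c = X ∪ stR L c := by
          rw [Set.union_assoc]
          exact Set.union_eq_self_of_subset_left (hYs.trans Set.subset_union_right)
        rw [h7]
        by_cases h8 : X ⊆ stR L c ∧ InN L.J x
        · rw [if_pos h8, if_pos (h6.2 h8)]
        · rw [if_neg h8, if_neg (mt h6.1 h8)]
    | el j d =>
      have hmem : (⟨Y, NN.el j d⟩ * ⟨X, x⟩ : SpecialSD (NN B)) ∈ L.sub := by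
        rw [mk_mul]
        exact L.mem_sub.2 ⟨hY.union (L.sat_image' hy2 _ _), hy2⟩
      rw [nuR_mem L _ hmem, nuR_op]
      set c := op (⟨core L.r X, NN.e⟩ : SpecialSD (NN B)) • op (⟨Y, NN.el j d⟩ : SpecialSD (NN B)) • a with hc
      have h8 : ∀ Z : Set (NN B), ∃ W w, (⟨Y, NN.el j d⟩ * ⟨Z, NN.e⟩ : SpecialSD (NN B))
          = ⟨W, NN.el j w⟩ := fun Z => ⟨_, _, rfl⟩
      obtain ⟨W, w, hW⟩ := h8 (core L.r X)
      have h4 : op (gg : SpecialSD (NN B)) • c = c := by
        rw [hc, smul_smul (op (⟨core L.r X, NN.e⟩ : SpecialSD (NN B))), smul_smul, ← op_mul, ← op_mul, hW,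
          mul_gg]
      unfold nuR'
      simp only [h4, if_true]
      refine Prod.ext rfl ?_
      simp only
      rw [op_mul gg, mul_smul, h4, hc, smul_smul, smul_smul, ← op_mul, ← op_mul]
      congr 2
      rw [mk_e_mul, Set.union_eq_self_of_subset_left (core_subset L.hr X)]
  · rintro ⟨t, a⟩
    obtain ⟨t, rfl⟩ := op_surjective t
    obtain ⟨X, x⟩ := t
    rw [nuR_op]
    set c := op (⟨core L.r X, NN.e⟩ : SpecialSD (NN B)) • a with hc
    have h1 : Relation.ReflTransGen (Move L.sub.op) (op (⟨X, x⟩ : SpecialSD (NN B)), a)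
        (op (⟨X, x⟩ : SpecialSD (NN B)), c) := by
      refine .single ?_
      have h2 := Move.m1 (T0 := L.sub.op) (op (⟨X, x⟩ : SpecialSD (NN B)))
        (op (⟨core L.r X, NN.e⟩ : SpecialSD (NN B))) a (L.mem_sub.2 ⟨Sat.core L.hr X, trivial⟩)
      rw [← op_mul, mk_e_mul, Set.union_eq_self_of_subset_left (core_subset L.hr X)] at h2
      exact h2
    refine h1.trans ?_
    have hst := stR_spec L c
    unfold nuR'
    split_ifs with h4 h5
    · have h2 := Move.m2 (T0 := L.sub.op) (op (⟨X, x⟩ : SpecialSD (NN B))) (op gg) c (gg_mem L) h4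
      rw [← op_mul] at h2
      have h3 := Move.m1 (T0 := L.sub.op) 1 (op (gg * (⟨X, x⟩ : SpecialSD (NN B)))) c
        (gg_mul_mem L _)
      rw [one_mul] at h3
      exact (Relation.ReflTransGen.single h2).trans (.single h3)
    · have h2 := Move.m2 (T0 := L.sub.op) (op (⟨X, x⟩ : SpecialSD (NN B)))
        (op (⟨stR L c, NN.e⟩ : SpecialSD (NN B))) c (L.mem_sub.2 ⟨hst.1, trivial⟩) hst.2
      rw [← op_mul, mk_e_mul, Set.union_eq_self_of_subset_right h5.1] at h2
      have h3 := Move.m1 (T0 := L.sub.op) 1 (op (⟨stR L c, x⟩ : SpecialSD (NN B))) c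
        (L.mem_sub.2 ⟨hst.1, h5.2⟩)
      rw [one_mul] at h3
      have h6 : op (⟨stR L c, x⟩ : SpecialSD (NN B)) • c = op (⟨∅, x⟩ : SpecialSD (NN B)) • c := by
        have h7 : op (⟨∅, x⟩ : SpecialSD (NN B)) • op (⟨stR L c, NN.e⟩ : SpecialSD (NN B)) • c
            = op (⟨stR L c, x⟩ : SpecialSD (NN B)) • c := by
          rw [smul_smul (op (⟨∅, x⟩ : SpecialSD (NN B))), ← op_mul, mk_e_mul, Set.union_empty]
        rw [← h7, hst.2]
      rw [← h6]
      exact (Relation.ReflTransGen.single h2).trans (.single h3)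
    · have h2 := Move.m2 (T0 := L.sub.op) (op (⟨X, x⟩ : SpecialSD (NN B)))
        (op (⟨stR L c, NN.e⟩ : SpecialSD (NN B))) c (L.mem_sub.2 ⟨hst.1, trivial⟩) hst.2
      rw [← op_mul, mk_e_mul, Set.union_comm] at h2
      exact .single h2

end Coh


section Maps

/-- functoriality of the special semidirect product -/
def SpecialSD.map {M : Type u} {N : Type v} [Monoid M] [Monoid N] (φ : M →* N) : SpecialSD M →* SpecialSD N where
  toFun a := ⟨φ '' a.pt, φ a.el⟩
  map_one' := by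
    refine SpecialSD.ext ?_ (map_one φ)
    change φ '' ∅ = ∅
    simp
  map_mul' a b := by
    refine SpecialSD.ext ?_ (_root_.map_mul φ _ _)
    change φ '' (a.pt ∪ (fun y => a.el * y) '' b.pt)
      = φ '' a.pt ∪ (fun y => φ a.el * y) '' (φ '' b.pt)
    rw [Set.image_union, Set.image_image, Set.image_image]
    simp only [_root_.map_mul]

theorem SpecialSD.map_injective {M : Type u} {N : Type v} [Monoid M] [Monoid N] (φ : M →* N)
    (h : Function.Injective φ) : Function.Injective (SpecialSD.map φ) := by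
  intro a b hab
  have h1 : φ '' a.pt = φ '' b.pt := congrArg SpecialSD.pt hab
  have h2 : φ a.el = φ b.el := congrArg SpecialSD.el hab
  exact SpecialSD.ext (h.image_injective h1) (h h2)

end Maps

/-- the monoid with elements 1, z, 0 and z z = 0 -/
inductive BB : Type
  | i : BB
  | z : BB
  | o : BB

instance : Monoid BB where
  one := .i
  mul x y := match x, y with
    | .i, y => y
    | x, .i => x
    | _, _ => .o
  mul_assoc x y w := by cases x <;> cases y <;> cases w <;> rfl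
  one_mul x := by cases x <;> rfl
  mul_one x := by cases x <;> rfl

instance : Finite BB := by
  refine Finite.of_injective (β := Fin 3) (fun x => match x with | .i => 0 | .z => 1 | .o => 2) ?_
  intro x y h
  cases x <;> cases y <;> simp_all

/-- the monoid M = 1 ∪ ℕ × (z, 0) -/
inductive MM : Type
  | e : MM
  | z (i : ℕ) : MM
  | o (i : ℕ) : MM

instance : Monoid MM where
  one := .e
  mul x y := match x, y with
    | .e, y => y
    | x, .e => x
    | .z i, _ => .o i
    | .o i, _ => .o i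
  mul_assoc x y w := by cases x <;> cases y <;> cases w <;> rfl
  one_mul x := by cases x <;> rfl
  mul_one x := by cases x <;> rfl

/-- inclusion of M in N -/
def incl : MM →* NN BB where
  toFun x := match x with
    | .e => .e
    | .z i => .el i .z
    | .o i => .el i .o
  map_one' := rfl
  map_mul' x y := by cases x <;> cases y <;> rfl

theorem incl_injective : Function.Injective incl := by
  intro x y h
  cases x <;> cases y <;> simp_all [incl]

theorem MM_fac (s p : SpecialSD MM) (k : ℕ) (h : s * p = ⟨∅, MM.z k⟩) :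
    (s = 1 ∧ p = ⟨∅, MM.z k⟩) ∨ (p = 1 ∧ s = ⟨∅, MM.z k⟩) := by
  obtain ⟨X, x⟩ := s
  obtain ⟨Y, y⟩ := p
  have h1 : X ∪ (fun z => x * z) '' Y = ∅ := congrArg SpecialSD.pt h
  have h2 : x * y = MM.z k := congrArg SpecialSD.el h
  rw [Set.union_empty_iff, Set.image_eq_empty] at h1
  obtain ⟨rfl, rfl⟩ := h1
  cases x with
  | e => exact Or.inl ⟨rfl, SpecialSD.ext rfl h2⟩
  | z i =>
    cases y with
    | e => exact Or.inr ⟨rfl, SpecialSD.ext rfl h2⟩
    | z j => exact absurd h2 (by intro h; cases h)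
    | o j => exact absurd h2 (by intro h; cases h)
  | o i =>
    cases y with
    | e => exact Or.inr ⟨rfl, SpecialSD.ext rfl h2⟩
    | z j => exact absurd h2 (by intro h; cases h)
    | o j => exact absurd h2 (by intro h; cases h)

theorem MM_cancel_right (p : SpecialSD MM) (k : ℕ) (h : p * ⟨∅, MM.z k⟩ = ⟨∅, MM.z k⟩) : p = 1 := by
  rcases MM_fac _ _ _ h with ⟨h1, -⟩ | ⟨h1, -⟩
  · exact h1
  · have h2 : MM.z k = MM.e := congrArg SpecialSD.el h1
    cases h2

theorem MM_cancel_left (p : SpecialSD MM) (k : ℕ) (h : ⟨∅, MM.z k⟩ * p = (⟨∅, MM.z k⟩ : SpecialSD MM)) :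
    p = 1 := by
  rcases MM_fac _ _ _ h with ⟨h1, -⟩ | ⟨h1, -⟩
  · have h2 : MM.z k = MM.e := congrArg SpecialSD.el h1
    cases h2
  · exact h1

theorem not_leftCoh : ¬ LeftCoherent (SpecialSD MM) := by
  intro h
  obtain ⟨H, hfin, hH, hgen⟩ := h.ann ⟨∅, MM.z 0⟩
  have hinj : Function.Injective (fun k : ℕ => (⟨∅, MM.z k⟩ : SpecialSD MM)) := by
    intro k l hkl
    have : MM.z k = MM.z l := congrArg SpecialSD.el hkl
    injection this
  have hfin2 : ((fun k : ℕ => (⟨∅, MM.z k⟩ : SpecialSD MM)) ⁻¹' (Prod.fst '' H ∪ Prod.snd '' H)).Finite :=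
    Set.Finite.preimage hinj.injOn ((hfin.image _).union (hfin.image _))
  obtain ⟨k, hk⟩ := hfin2.infinite_compl.nonempty
  have hk1 : ∀ p q, (p, q) ∈ H → p ≠ ⟨∅, MM.z k⟩ := by
    rintro p q hpq rfl
    exact hk (Or.inl ⟨_, hpq, rfl⟩)
  have hk2 : ∀ p q, (p, q) ∈ H → q ≠ ⟨∅, MM.z k⟩ := by
    rintro p q hpq rfl
    exact hk (Or.inr ⟨_, hpq, rfl⟩)
  have h1 : ActCon (SpecialSD MM) H (⟨∅, MM.z k⟩ : SpecialSD MM) ⟨∅, MM.o k⟩ := by
    refine hgen _ _ (SpecialSD.ext ?_ rfl)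
    change (∅ : Set MM) ∪ _ '' (∅ : Set MM) = ∅ ∪ _ '' (∅ : Set MM)
    simp
  have h2 := ActCon.inv (fun x : SpecialSD MM => x = ⟨∅, MM.z k⟩) ?_ h1
  · have h3 : (⟨∅, MM.o k⟩ : SpecialSD MM) = ⟨∅, MM.z k⟩ := (iff_of_eq h2).1 rfl
    have h4 : MM.o k = MM.z k := congrArg SpecialSD.el h3
    cases h4
  · intro s p q hpq
    have h5 := hH p q hpq
    simp only [smul_eq_mul, eq_iff_iff]
    constructor
    · intro h6
      rcases MM_fac _ _ _ h6 with ⟨-, h7⟩ | ⟨h7, h8⟩
      · exact absurd h7 (hk1 _ _ hpq)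
      · rw [h7, one_mul] at h5
        rw [MM_cancel_right q 0 h5.symm, h8, mul_one]
    · intro h6
      rcases MM_fac _ _ _ h6 with ⟨-, h7⟩ | ⟨h7, h8⟩
      · exact absurd h7 (hk2 _ _ hpq)
      · rw [h7, one_mul] at h5
        rw [MM_cancel_right p 0 h5, h8, mul_one]

open MulOpposite in
theorem not_rightCoh : ¬ RightCoherent (SpecialSD MM) := by
  intro h
  obtain ⟨H, hfin, hH, hgen⟩ := LeftCoherent.ann h (op ⟨∅, MM.z 0⟩)
  have hinj : Function.Injective (fun k : ℕ => op (⟨∅, MM.z k⟩ : SpecialSD MM)) := by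
    intro k l hkl
    have h0 : (⟨∅, MM.z k⟩ : SpecialSD MM) = ⟨∅, MM.z l⟩ := op_injective hkl
    have : MM.z k = MM.z l := congrArg SpecialSD.el h0
    injection this
  have hfin2 : ((fun k : ℕ => op (⟨∅, MM.z k⟩ : SpecialSD MM)) ⁻¹'
      (Prod.fst '' H ∪ Prod.snd '' H)).Finite :=
    Set.Finite.preimage hinj.injOn ((hfin.image _).union (hfin.image _))
  obtain ⟨k, hk⟩ := hfin2.infinite_compl.nonempty
  have hk1 : ∀ p q, (p, q) ∈ H → unop p ≠ ⟨∅, MM.z k⟩ := by
    rintro p q hpq h0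
    exact hk (Or.inl ⟨_, hpq, unop_injective h0⟩)
  have hk2 : ∀ p q, (p, q) ∈ H → unop q ≠ ⟨∅, MM.z k⟩ := by
    rintro p q hpq h0
    exact hk (Or.inr ⟨_, hpq, unop_injective h0⟩)
  have h1 : ActCon (SpecialSD MM)ᵐᵒᵖ H (op (⟨∅, MM.z k⟩ : SpecialSD MM)) (op ⟨∅, MM.z (k + 1)⟩) := by
    refine hgen _ _ ?_
    rw [← op_mul, ← op_mul]
    refine congrArg op (SpecialSD.ext ?_ rfl)
    change (∅ : Set MM) ∪ _ '' (∅ : Set MM) = ∅ ∪ _ '' (∅ : Set MM)
    simp
  have h2 := ActCon.inv (fun x : (SpecialSD MM)ᵐᵒᵖ => unop x = ⟨∅, MM.z k⟩) ?_ h1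
  · have h3 : (⟨∅, MM.z (k + 1)⟩ : SpecialSD MM) = ⟨∅, MM.z k⟩ := (iff_of_eq h2).1 rfl
    have h4 : MM.z (k + 1) = MM.z k := congrArg SpecialSD.el h3
    injection h4 with h5
    omega
  · intro s p q hpq
    have h5 : ⟨∅, MM.z 0⟩ * unop p = (⟨∅, MM.z 0⟩ : SpecialSD MM) * unop q :=
      congrArg unop (hH p q hpq)
    simp only [smul_eq_mul, eq_iff_iff, unop_mul]
    constructor
    · intro h6
      rcases MM_fac _ _ _ h6 with ⟨h7, h8⟩ | ⟨-, h7⟩
      · rw [h7, mul_one] at h5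
        rw [MM_cancel_left _ 0 h5.symm, h8, one_mul]
      · exact absurd h7 (hk1 _ _ hpq)
    · intro h6
      rcases MM_fac _ _ _ h6 with ⟨h7, h8⟩ | ⟨-, h7⟩
      · rw [h7, mul_one] at h5
        rw [MM_cancel_left _ 0 h5, h8, one_mul]
      · exact absurd h7 (hk2 _ _ hpq)

end Pool.Agent.H9.Coh
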